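import Pool.Agent.R616.DI.Nce4

/-!
# Post's problem for Boolean combinations of c.e. operators needs unbounded non-uniformity

`W r X` is the set c.e. in `X` with index `r`, `J X` is the jump of `X`, `le Y X` is Turing
reducibility `Y ≤_T X`, `ch P` is the characteristic function of `P`, and `Red c X Y` says that the
program `c` reduces `Y` to `X` (all in `Pool/Agent/H639/LU/Defs.lean`). `Clo F` says that the set `F`
of oracles is closed in the Cantor space, `Cof F` that it has members of cofinally many Turing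
degrees; the set of all oracles is an example. `jn 0 A B` is the join `A ⊕ B`.

For a list `l = [r₁, …, rₙ]` of programs and an arbitrary Boolean function `f`, `bcomb f l` is the
operator `X ↦ f (W_{r₁}^X, …, W_{rₙ}^X)`, applied to the sets pointwise. Differences of c.e. operators,
symmetric differences, and complements are examples.

1. Let `D` be such an operator, and let `G` be any operation on oracles, definable or not, such that,
   for the `X` in `F` in a cone, some member of a fixed finite list of programs reduces `X ⊕ D X` to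
   `G X`, and whenever `X ≡_T Y` via the programs `i`, `j`, with `Y` in `F`, one of at most `k`
   programs (given by `i` and `j` in an arbitrary way) reduces `G Y` to `G X`. Then either one program
   computes `D Y` from `Y` for all `Y` in a smaller closed set with members of cofinally many degrees,
   or `X' ≤_T G X` for all `X` in `F` in a cone.
2. So if `D X` is not computable in `X` and `X ⊕ D X` does not compute `X'`, for the `X` in `F` in a
   cone, then for every `k` there is a pair `(i, j)` of programs for which no `k` programs suffice to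
   reduce `Y ⊕ D Y` to `X ⊕ D X`, even for the `X`, `Y` in `F`, in any cone.
3. The reason: `X ⊕ D X` is uniformly Turing equivalent to an `m`-REA operator `rea L X`
   (`Pool/Agent/R616/DI/Rea.lean`), to the first nontrivial step of which the coding is applied.
-/

set_option autoImplicit false

namespace Pool.Agent.Results.MP_57825d_lc.BooleanCombinations

open Nat.Partrec (Code)
open Encodable
open Pool.Agent.H639.LU Pool.Agent.H869R3.FN Pool.Agent.Y579.PP Pool.Agent.R616.DI

theorem result :
    -- 1. the dichotomy for operations above a Boolean combination of c.e. operators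
    (∀ F : Set (ℕ → Bool), Clo F → Cof F → ∀ (l : List Code) (f : List Bool → Bool)
      (G : (ℕ → Bool) → ℕ → Bool) (D : Finset Code) (z₀ : ℕ → Bool) (k : ℕ)
      (u : Code → Code → Finset Code), (∀ i j, (u i j).card ≤ k) →
      (∀ X ∈ F, le z₀ X → ∃ d ∈ D, Red d (G X) (jn 0 X (bcomb f l X))) →
      (∀ X ∈ F, le z₀ X → ∀ i j : Code, ∀ Y ∈ F, Red i X Y → Red j Y X →
        ∃ m ∈ u i j, Red m (G X) (G Y)) →
      (∃ F' ⊆ F, Clo F' ∧ Cof F' ∧ ∃ c : Code, ∀ Y ∈ F', Red c Y (bcomb f l Y)) ∨
        ∃ z, ∀ X ∈ F, le z X → le (ch (J X)) (G X)) ∧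
    -- 2. solutions to Post's problem
    (∀ F : Set (ℕ → Bool), Clo F → Cof F → ∀ (l : List Code) (f : List Bool → Bool)
      (z₀ : ℕ → Bool),
      (∀ X ∈ F, le z₀ X → ¬ le (bcomb f l X) X ∧ ¬ le (ch (J X)) (jn 0 X (bcomb f l X))) →
      ∀ k : ℕ, ∃ i j : Code, ∀ L : Finset Code, L.card ≤ k → ∀ z : ℕ → Bool,
        ∃ X ∈ F, ∃ Y ∈ F, le z X ∧ Red i X Y ∧ Red j Y X ∧
          ∀ m ∈ L, ¬ Red m (jn 0 X (bcomb f l X)) (jn 0 Y (bcomb f l Y))) ∧
    -- 3. Boolean combinations and compositions of c.e. operators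
    (∀ (l : List Code) (f : List Bool → Bool), ∃ (L : List Code) (e b : Code), ∀ X : ℕ → Bool,
      Red e (rea L X) (jn 0 X (bcomb f l X)) ∧ Red b (jn 0 X (bcomb f l X)) (rea L X)) := by
  have dich : ∀ F : Set (ℕ → Bool), Clo F → Cof F → ∀ (l : List Code) (f : List Bool → Bool)
      (G : (ℕ → Bool) → ℕ → Bool) (D : Finset Code) (z₀ : ℕ → Bool) (k : ℕ)
      (u : Code → Code → Finset Code), (∀ i j, (u i j).card ≤ k) →
      (∀ X ∈ F, le z₀ X → ∃ d ∈ D, Red d (G X) (jn 0 X (bcomb f l X))) →
      (∀ X ∈ F, le z₀ X → ∀ i j : Code, ∀ Y ∈ F, Red i X Y → Red j Y X →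
        ∃ m ∈ u i j, Red m (G X) (G Y)) →
      (∃ F' ⊆ F, Clo F' ∧ Cof F' ∧ ∃ c : Code, ∀ Y ∈ F', Red c Y (bcomb f l Y)) ∨
        ∃ z, ∀ X ∈ F, le z X → le (ch (J X)) (G X) := by
    intro F hF hF' l f G D z₀ k u hu hD hinv
    obtain ⟨l', h⟩ := bcomb_sdf l f
    rcases nce_above l' F hF hF' G D z₀ (fun X hX hz => by rw [← h X]; exact hD X hX hz)
      k u hu z₀ hinv with ⟨F', g1, g2, g3, c, hc⟩ | h'
    · exact Or.inl ⟨F', g1, g2, g3, c, fun Y hY => by rw [h Y]; exact hc Y hY⟩
    · exact Or.inr h'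
  refine ⟨dich, ?_, ?_⟩
  · intro F hF hF' l f z₀ h k
    obtain ⟨d, hd⟩ := exists_id
    refine no_cand (fun X => jn 0 X (bcomb f l X)) F k fun u z₂ hu hinv => ?_
    rcases dich F hF hF' l f (fun X => jn 0 X (bcomb f l X)) {d} z₂ k u hu
      (fun X _ _ => ⟨d, Finset.mem_singleton_self _, hd _⟩) hinv with
      ⟨F₁, g1, g2, g3, c, hc⟩ | ⟨z, hz⟩
    · obtain ⟨Y, hY, hzY⟩ := g3 z₀
      exact (h Y (g1 hY) hzY).1 ((le_iff _ _).2 ⟨c, hc Y hY⟩)
    · obtain ⟨z₄, h4a, h4b⟩ := join2 z₀ z
      obtain ⟨Y, hY, hzY⟩ := hF' z₄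
      exact (h Y hY (le_trans' h4a hzY)).2 (hz Y hY (le_trans' h4b hzY))
  · intro l f
    obtain ⟨l', h⟩ := bcomb_sdf l f
    obtain ⟨L, e, b, h2⟩ := nce_rea l'
    exact ⟨L, e, b, fun X => by rw [h X]; exact h2 X⟩

end Pool.Agent.Results.MP_57825d_lc.BooleanCombinations
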