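import Pool.Agent.R616.DI.Rea

/-!
# Solutions to Post's problem on a closed set of oracles need unbounded non-uniformity

`W r X` is the set c.e. in `X` with index `r`: `n ∈ W r X` iff the program `r` halts on the input
`(n, σ)` for some finite initial segment `σ` of `X`; `J X` is the jump of `X`; `le Y X` is Turing
reducibility `Y ≤_T X`; `ch P` is the characteristic function of `P`; `Red c X Y` says that the
program `c` reduces `Y` to `X` (all in `Pool/Agent/H639/LU/Defs.lean`; part 5 says that `Y ≤_T X`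
holds iff some program reduces `Y` to `X`). `Clo F` says that the set `F` of oracles is closed in the
Cantor space, `Cof F` that it has members of cofinally many Turing degrees. Examples are the set of
all oracles, the set of the branches of a pointed perfect tree, and the `Π⁰₁` class of the
completions of Peano arithmetic.

The theorem `BoundedNonuniformity` of this folder treats operators which solve Post's problem, and are
invariant with `k` candidates, for all oracles in a cone. Here nothing is assumed outside of a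
closed set `F`: neither the solution property nor the invariance.

1. Local form: if `W_r^X` is not computable in `X` for the `X` in `F` in a cone, then for each `k`, for
   all `X` in a cone and all `V ≥_T X`: if a set c.e. in `V` provides, for every pair `(i, j)`, at
   most `k` programs such that for all `Y` in `F` with `Y ≡_T X` via `(i, j)` one of them reduces
   `W_r^Y` to `V`, then `X' ≤_T V`.
2. Dichotomy: if `X ≤_T W_r^X` and `W_r` is invariant with `k` candidates, both on the part of `F` in a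
   cone, then either a single program computes `W_r^Y` from `Y` for all `Y` in a smaller closed set
   with members of cofinally many degrees, or `X' ≤_T W_r^X` for all `X` in `F` in a cone.
3. So if `W_r` solves Post's problem on the part of `F` in a cone, then for every `k` there is a pair
   `(i, j)` for which no `k` programs suffice, even for the `X`, `Y` in `F`, in any cone.
4. Closedness cannot be dropped: there is a set `D` which meets every Turing degree such that every
   operation whatsoever is invariant on `D`, with the identity program.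

Proof. If no boundary of `{X : n ∈ W_r^X}` in `F` has members of cofinally many degrees, then a table
of the values near the points of `F` is put in the even places of the branches of a tree in `F`
decoded by a fixed program; this gives the smaller closed set of 2, where one program computes
`W_r`. Otherwise the boundaries can be iterated, and the coding of `BoundedNonuniformity` stays
inside `F`.
-/

set_option autoImplicit false

namespace Pool.Agent.Results.MP_57825d_lc.ClosedSets

open Nat.Partrec (Code)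
open Encodable
open Pool.Agent.H639.LU Pool.Agent.H869R3.FN Pool.Agent.R616.DI

theorem transversal : ∃ (D : Set (ℕ → Bool)) (d : Code), (∀ X, ∃ Y ∈ D, le X Y ∧ le Y X) ∧
    ∀ G : (ℕ → Bool) → ℕ → Bool, ∀ X ∈ D, ∀ Y ∈ D, le X Y → le Y X → Red d (G X) (G Y) := by
  classical
  let s : Setoid (ℕ → Bool) :=
    ⟨fun X Y => le X Y ∧ le Y X, fun X => ⟨le_refl' X, le_refl' X⟩, fun h => ⟨h.2, h.1⟩,
      fun h g => ⟨le_trans' h.1 g.1, le_trans' g.2 h.2⟩⟩
  obtain ⟨d, hd⟩ := exists_id
  refine ⟨Set.range (fun q : Quotient s => Quotient.out q), d, fun X => ?_, ?_⟩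
  · refine ⟨Quotient.out (Quotient.mk s X), ⟨_, rfl⟩, ?_⟩
    have h : s.r (Quotient.out (Quotient.mk s X)) X := Quotient.mk_out (s := s) X
    exact ⟨h.2, h.1⟩
  · rintro G X ⟨q, rfl⟩ Y ⟨q', rfl⟩ h1 h2
    have h3 : q = q' := by
      rw [← Quotient.out_eq q, ← Quotient.out_eq q']
      exact Quotient.sound (s := s) ⟨h1, h2⟩
    subst h3
    exact hd _

theorem result :
    -- 1. the local form
    (∀ F : Set (ℕ → Bool), Clo F → Cof F → ∀ (r : Code) (z₀ : ℕ → Bool),
      (∀ X ∈ F, le z₀ X → ¬ le (ch (W r X)) X) →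
      ∀ k : ℕ, ∃ z₁ : ℕ → Bool, ∀ X, le z₁ X → ∀ V : ℕ → Bool, le X V → ∀ e : Code,
        (∀ i j : Code, {l : Code | W e V (encode (i, j, l))}.encard ≤ k) →
        (∀ i j : Code, ∀ Y ∈ F, Red i X Y → Red j Y X →
          ∃ l : Code, W e V (encode (i, j, l)) ∧ Red l V (ch (W r Y))) →
        le (ch (J X)) V) ∧
    -- 2. the dichotomy
    (∀ F : Set (ℕ → Bool), Clo F → Cof F → ∀ (r : Code) (z₂ : ℕ → Bool) (k : ℕ)
      (u : Code → Code → Finset Code), (∀ i j, (u i j).card ≤ k) →
      (∀ X ∈ F, le z₂ X → le X (ch (W r X)) ∧ ∀ i j : Code, ∀ Y ∈ F, Red i X Y → Red j Y X →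
        ∃ l ∈ u i j, Red l (ch (W r X)) (ch (W r Y))) →
      (∃ F' ⊆ F, Clo F' ∧ Cof F' ∧ ∃ c : Code, ∀ Y ∈ F', Red c Y (ch (W r Y))) ∨
        ∃ z, ∀ X ∈ F, le z X → le (ch (J X)) (ch (W r X))) ∧
    -- 3. solutions to Post's problem
    (∀ F : Set (ℕ → Bool), Clo F → Cof F → ∀ (r : Code) (z₀ : ℕ → Bool),
      (∀ X ∈ F, le z₀ X →
        ¬ le (ch (W r X)) X ∧ le X (ch (W r X)) ∧ ¬ le (ch (J X)) (ch (W r X))) →
      ∀ k : ℕ, ∃ i j : Code, ∀ L : Finset Code, L.card ≤ k → ∀ z : ℕ → Bool,
        ∃ X ∈ F, ∃ Y ∈ F, le z X ∧ Red i X Y ∧ Red j Y X ∧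
          ∀ l ∈ L, ¬ Red l (ch (W r X)) (ch (W r Y))) ∧
    -- 4. a set which is not closed
    (∃ (D : Set (ℕ → Bool)) (d : Code), (∀ X, ∃ Y ∈ D, le X Y ∧ le Y X) ∧
      ∀ G : (ℕ → Bool) → ℕ → Bool, ∀ X ∈ D, ∀ Y ∈ D, le X Y → le Y X → Red d (G X) (G Y)) ∧
    -- 5. reducibility and programs
    (∀ X Y : ℕ → Bool, le Y X ↔ ∃ c : Code, Red c X Y) := by
  have dich : ∀ F : Set (ℕ → Bool), Clo F → Cof F → ∀ (r : Code) (z₂ : ℕ → Bool) (k : ℕ)
      (u : Code → Code → Finset Code), (∀ i j, (u i j).card ≤ k) →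
      (∀ X ∈ F, le z₂ X → le X (ch (W r X)) ∧ ∀ i j : Code, ∀ Y ∈ F, Red i X Y → Red j Y X →
        ∃ l ∈ u i j, Red l (ch (W r X)) (ch (W r Y))) →
      (∃ F' ⊆ F, Clo F' ∧ Cof F' ∧ ∃ c : Code, ∀ Y ∈ F', Red c Y (ch (W r Y))) ∨
        ∃ z, ∀ X ∈ F, le z X → le (ch (J X)) (ch (W r X)) := by
    intro F hF hF' r z₂ k u hu hinv
    rcases nt_or r F with hN | ⟨F₁, g1, g2, g3, g4⟩
    · right
      obtain ⟨d, hd⟩ := exists_id
      exact above (fun _ h => h) hF hF' hN (fun X => ch (W r X)) {d} z₂
        (fun X hX hz => (hinv X hX hz).1) (fun X _ _ => ⟨d, Finset.mem_singleton_self _, hd _⟩)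
        k u hu z₂ (fun X hX hz => (hinv X hX hz).2)
    · exact Or.inl ⟨F₁, g1, g2, g3, g4⟩
  refine ⟨fun F hF hF' r z₀ h k => localF r F hF hF' (nt_of h) k, dich, ?_, transversal, le_iff⟩
  intro F hF hF' r z₀ h k
  refine no_cand (fun X => ch (W r X)) F k fun u z₂ hu hinv => ?_
  obtain ⟨z₃, h3a, h3b⟩ := join2 z₀ z₂
  rcases dich F hF hF' r z₃ k u hu (fun X hX hz =>
      ⟨(h X hX (le_trans' h3a hz)).2.1, hinv X hX (le_trans' h3b hz)⟩) with
    ⟨F₁, g1, g2, g3, c, hc⟩ | ⟨z, hz⟩
  · obtain ⟨Y, hY, hzY⟩ := g3 z₀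
    exact (h Y (g1 hY) hzY).1 ((le_iff _ _).2 ⟨c, hc Y hY⟩)
  · obtain ⟨z₄, h4a, h4b⟩ := join2 z₀ z
    obtain ⟨Y, hY, hzY⟩ := hF' z₄
    exact (h Y hY (le_trans' h4a hzY)).2.2 (hz Y hY (le_trans' h4b hzY))

end Pool.Agent.Results.MP_57825d_lc.ClosedSets
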