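import Pool.Agent.R616.DI.Rea

/-!
# Post's problem for compositions of c.e. operators needs unbounded non-uniformity

`W r X` is the set c.e. in `X` with index `r`, `J X` is the jump of `X`, `le Y X` is Turing
reducibility `Y ≤_T X`, `ch P` is the characteristic function of `P`, and `Red c X Y` says that the
program `c` reduces `Y` to `X` (all in `Pool/Agent/H639/LU/Defs.lean`). `Clo F` says that the set `F`
of oracles is closed in the Cantor space, `Cof F` that it has members of cofinally many Turing
degrees; the set of all oracles is an example.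

`rea l X` (in `Pool/Agent/R616/DI/Rea.lean`) is the `n`-REA operator of a list `l = [r₁, …, rₙ]` of
programs: `rea [] X = X` and `rea (r :: l) X = rea l (X ⊕ W_r^X)`; so each set is enumerable in the
join of the oracle with the sets before it. The operators `W_r` with `X ≤_T W_r^X` are the case
`n = 1`.

1. Let `W_r^X` be not computable in `X` for the `X` in `F` in a cone, and let `G` be any operation
   on oracles, definable or not, such that, for the `X` in `F` in a cone, `X ≤_T G X`, some member of a
   fixed finite list of programs reduces `W_r^X` to `G X`, and whenever `X ≡_T Y` via the programs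
   `i`, `j`, with `Y` in `F`, one of at most `k` programs (given by `i` and `j` in an arbitrary way)
   reduces `G Y` to `G X`. Then `X' ≤_T G X` for all `X` in `F` in a cone.
2. Dichotomy: an `n`-REA operator which is invariant with `k` candidates on the part of `F` in a cone
   is either computed by one program on a smaller closed set with members of cofinally many degrees,
   or it is above the jump on the part of `F` in a cone.
3. So if an `n`-REA operator solves Post's problem (its value is not computable in `X` and does not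
   compute `X'`) on the part of `F` in a cone, then for every `k` there is a pair `(i, j)` of programs for
   which no `k` programs suffice, even for the `X`, `Y` in `F`, in any cone.

For 2: as long as the steps of the operator are trivial on some smaller closed set they are computed
by one program on such a set, so that the next step is a c.e. operator of the oracle there; to the
first nontrivial step 1 is applied.
-/

set_option autoImplicit false

namespace Pool.Agent.Results.MP_57825d_lc.REAOperators

open Nat.Partrec (Code)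
open Encodable
open Pool.Agent.H639.LU Pool.Agent.H869R3.FN Pool.Agent.R616.DI

theorem result :
    -- 1. operations above a c.e. operator
    (∀ F : Set (ℕ → Bool), Clo F → Cof F → ∀ (r : Code) (z₀ : ℕ → Bool),
      (∀ X ∈ F, le z₀ X → ¬ le (ch (W r X)) X) →
      ∀ (G : (ℕ → Bool) → ℕ → Bool) (D : Finset Code),
      (∀ X ∈ F, le z₀ X → le X (G X) ∧ ∃ d ∈ D, Red d (G X) (ch (W r X))) →
      ∀ (k : ℕ) (u : Code → Code → Finset Code), (∀ i j, (u i j).card ≤ k) →
      (∀ X ∈ F, le z₀ X → ∀ i j : Code, ∀ Y ∈ F, Red i X Y → Red j Y X →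
        ∃ l ∈ u i j, Red l (G X) (G Y)) →
      ∃ z, ∀ X ∈ F, le z X → le (ch (J X)) (G X)) ∧
    -- 2. the dichotomy for REA operators
    (∀ F : Set (ℕ → Bool), Clo F → Cof F → ∀ (l : List Code) (z₂ : ℕ → Bool) (k : ℕ)
      (u : Code → Code → Finset Code), (∀ i j, (u i j).card ≤ k) →
      (∀ X ∈ F, le z₂ X → ∀ i j : Code, ∀ Y ∈ F, Red i X Y → Red j Y X →
        ∃ m ∈ u i j, Red m (rea l X) (rea l Y)) →
      (∃ F' ⊆ F, Clo F' ∧ Cof F' ∧ ∃ c : Code, ∀ Y ∈ F', Red c Y (rea l Y)) ∨
        ∃ z, ∀ X ∈ F, le z X → le (ch (J X)) (rea l X)) ∧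
    -- 3. solutions to Post's problem
    (∀ F : Set (ℕ → Bool), Clo F → Cof F → ∀ (l : List Code) (z₀ : ℕ → Bool),
      (∀ X ∈ F, le z₀ X → ¬ le (rea l X) X ∧ ¬ le (ch (J X)) (rea l X)) →
      ∀ k : ℕ, ∃ i j : Code, ∀ L : Finset Code, L.card ≤ k → ∀ z : ℕ → Bool,
        ∃ X ∈ F, ∃ Y ∈ F, le z X ∧ Red i X Y ∧ Red j Y X ∧
          ∀ m ∈ L, ¬ Red m (rea l X) (rea l Y)) ∧
    -- 4. each REA operator is above its argument
    (∀ l : List Code, ∃ d : Code, ∀ X, Red d (rea l X) X) := by
  have dich : ∀ F : Set (ℕ → Bool), Clo F → Cof F → ∀ (l : List Code) (z₂ : ℕ → Bool) (k : ℕ)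
      (u : Code → Code → Finset Code), (∀ i j, (u i j).card ≤ k) →
      (∀ X ∈ F, le z₂ X → ∀ i j : Code, ∀ Y ∈ F, Red i X Y → Red j Y X →
        ∃ m ∈ u i j, Red m (rea l X) (rea l Y)) →
      (∃ F' ⊆ F, Clo F' ∧ Cof F' ∧ ∃ c : Code, ∀ Y ∈ F', Red c Y (rea l Y)) ∨
        ∃ z, ∀ X ∈ F, le z X → le (ch (J X)) (rea l X) := by
    intro F hF hF' l z₂ k u hu hinv
    rcases rea_dich l F hF hF' k u hu z₂ hinv with ⟨F₁, g1, g2, g3, g4⟩ | h
    · exact Or.inl ⟨F₁, g1, g2, g3, g4⟩
    · exact Or.inr h
  refine ⟨?_, dich, ?_, rea_back⟩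
  · intro F hF hF' r z₀ h G D hG k u hu hinv
    exact above (fun _ h => h) hF hF' (nt_of h) G D z₀ (fun X hX hz => (hG X hX hz).1)
      (fun X hX hz => (hG X hX hz).2) k u hu z₀ hinv
  · intro F hF hF' l z₀ h k
    refine no_cand (rea l) F k fun u z₂ hu hinv => ?_
    rcases dich F hF hF' l z₂ k u hu hinv with ⟨F₁, g1, g2, g3, c, hc⟩ | ⟨z, hz⟩
    · obtain ⟨Y, hY, hzY⟩ := g3 z₀
      exact (h Y (g1 hY) hzY).1 ((le_iff _ _).2 ⟨c, hc Y hY⟩)
    · obtain ⟨z₄, h4a, h4b⟩ := join2 z₀ z
      obtain ⟨Y, hY, hzY⟩ := hF' z₄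
      exact (h Y hY (le_trans' h4a hzY)).2 (hz Y hY (le_trans' h4b hzY))

end Pool.Agent.Results.MP_57825d_lc.REAOperators
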